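import Pool.Agent.TH977.PW.Inst

set_option autoImplicit false

/-!
# Regular points of ARBITRARY sets of primes `q` for which `p = 2 q - 1` is a prime

Let `A` be an ARBITRARY set of primes `q` for which `p = 2 q - 1` is also a prime (that is, `q = (p + 1) / 2`) (for example the set of all of them), or of primes `q` for which `2 q - 1` has no prime factor up to a small power of `q`.
In every short interval `(X, X + Y]`, `X ^ θ ≤ Y ≤ X / 2`, all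
but `ε Y / (log X) ^ 2` of the elements of `A` are regular points of `A`: the numbers of elements of `A` in ALL
intervals around the point of length between `(log X) ^ 2 / c` and `Y` have the conjectured order of magnitude, and
`A` has constant density up to `δ` on both sides of the point at all but `B (ε, δ)` dyadic scales.
-/

namespace Pool.Agent.Results.MP_39a890_nt.RegularPoints

open Finset Filter

open Classical in
/-- the number of the elements of `A` in `(u, v]` -/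
noncomputable def N (A : Set ℕ) (u v : ℕ) : ℕ := ((Ioc u v).filter (fun m => m ∈ A)).card

/-- All intervals `(p - s, p + t]` with `s, t ≤ Y` of length at least `(log X) ^ 2 / c` contain the right order of
elements of `A`. -/
def RightOrder (A : Set ℕ) (c : ℝ) (X Y p : ℕ) : Prop :=
  ∀ s t : ℕ, s ≤ Y → t ≤ Y → Real.log X ^ 2 ≤ c * (s + t) →
    c * (s + t) / Real.log X ^ 2 ≤ N A (p - s) (p + t) ∧
      (N A (p - s) (p + t) : ℝ) ≤ (s + t) / (c * Real.log X ^ 2)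

/-- Up to `δ`, `A` has a constant density on both sides of `p` up to the distance `2 ^ j`. -/
def ConstantDensity (A : Set ℕ) (c δ : ℝ) (X p j : ℕ) : Prop :=
  ∃ lam : ℝ, c ≤ lam ∧ lam ≤ 1 / c ∧ ∀ s t : ℕ, s ≤ 2 ^ j → t ≤ 2 ^ j →
    |(N A (p - s) (p + t) : ℝ) - lam * (s + t) / Real.log X ^ 2| ≤ δ * 2 ^ j / Real.log X ^ 2

open Classical in
/-- the number of the scales `(log X) ^ 2 ≤ 2 ^ j ≤ Y` without this property -/
noncomputable def badScales (A : Set ℕ) (c δ : ℝ) (X Y p : ℕ) : ℕ :=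
  ((range (Nat.log 2 Y + 1)).filter (fun j => Real.log X ^ 2 ≤ (2 : ℝ) ^ j ∧ ¬ ConstantDensity A c δ X p j)).card

/-- The elements of `A` that are not regular points of `A`. -/
def Irregular (A : Set ℕ) (c δ : ℝ) (B X Y : ℕ) : Set ℕ :=
  {p | p ∈ A ∧ ¬ (RightOrder A c X Y p ∧ badScales A c δ X Y p ≤ B)}

/-- `p` is a prime, and all prime factors of `2 p - 1` are larger than `p ^ (1 / r)` -/
def PrimeRough (r p : ℕ) : Prop :=
  p.Prime ∧ ∀ q : ℕ, q.Prime → q ∣ 2 * p - 1 → (p : ℝ) ^ (1 / (r : ℝ)) < q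

lemma val0 (m : ℕ) (hm : 1 ≤ m) : ((2 : ℕ) : ℤ) * (m : ℤ) + (-1) = ((2 * m - 1 : ℕ) : ℤ) := by
  omega

lemma hR (r m : ℕ) (hm : PrimeRough r m) (i : Fin 1) (p : ℕ) (hp : p.Prime)
    (hd : (p : ℤ) ∣ (((![2] : Fin 1 → ℕ) i : ℕ) : ℤ) * (m : ℤ) + (![-1] : Fin 1 → ℤ) i) : (m : ℝ) ^ (1 / (r : ℝ)) < p := by
  have hm0 : 1 ≤ m := hm.1.one_lt.le
  apply hm.2 p hp
  fin_cases i
  · have h1 : (p : ℤ) ∣ ((2 : ℕ) : ℤ) * (m : ℤ) + (-1) := hd
    rw [val0 m hm0] at h1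
    exact Int.natCast_dvd_natCast.1 h1

lemma hA1 (r m : ℕ) (hm : 1 ≤ m)
    (h : ∀ i : Fin 1, ∀ p : ℕ, p.Prime → (p : ℤ) ∣ (((![2] : Fin 1 → ℕ) i : ℕ) : ℤ) * (m : ℤ) + (![-1] : Fin 1 → ℤ) i →
      (m : ℝ) ^ (1 / (r : ℝ)) < (p : ℝ)) (q : ℕ) (hq : q.Prime) (hd : q ∣ 2 * m - 1) :
    (m : ℝ) ^ (1 / (r : ℝ)) < (q : ℝ) := by
  
  · have h1 := h 0 q hq
    exact h1 (by
      have e : ((((![2] : Fin 1 → ℕ) 0 : ℕ) : ℤ) * (m : ℤ) + (![-1] : Fin 1 → ℤ) 0) = ((2 : ℕ) : ℤ) * (m : ℤ) + (-1) := rfl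
      rw [e, val0 m hm]
      exact Int.natCast_dvd_natCast.2 hd)

lemma hA2 (r m : ℕ) (hm : 1 ≤ m)
    (h : ∀ i : Fin 1, (((((![2] : Fin 1 → ℕ) i : ℕ) : ℤ) * (m : ℤ) + (![-1] : Fin 1 → ℤ) i)).natAbs.primeFactorsList.length ≤ r) :
    (2 * m - 1).primeFactorsList.length ≤ r :=
  (by
    have h1 := h 0
    have e : ((((![2] : Fin 1 → ℕ) 0 : ℕ) : ℤ) * (m : ℤ) + (![-1] : Fin 1 → ℤ) 0) = ((2 : ℕ) : ℤ) * (m : ℤ) + (-1) := rfl
    rw [e, val0 m hm, Int.natAbs_natCast] at h1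
    exact h1)

lemma hpos : ∀ i : Fin 1, 0 < (![2] : Fin 1 → ℕ) i := by
  intro i
  fin_cases i <;> norm_num

/-- a prime for which also the second number is a prime satisfies this -/
lemma prime_rough (r : ℕ) (hr : 2 ≤ r) (p : ℕ) (h : p.Prime ∧ (2 * p - 1).Prime) : PrimeRough r p := by
  refine ⟨h.1, fun q hq hd => ?_⟩
  
  · have h1 : q = 2 * p - 1 := (Nat.prime_dvd_prime_iff_eq hq h.2).1 hd
    apply Pool.Agent.TH977.PW.rpow_lt_of_le r p q hr h.1.two_le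
    rw [h1]
    have := h.1.two_le
    omega

lemma N_eq : N = Pool.Agent.TH977.PW.N := by
  funext A u v
  unfold N Pool.Agent.TH977.PW.N
  rfl

lemma RightOrder_iff (A : Set ℕ) (c : ℝ) (X Y m : ℕ) :
    RightOrder A c X Y m ↔ Pool.Agent.TH977.PW.RightOrder A 2 c X Y m := by
  unfold RightOrder Pool.Agent.TH977.PW.RightOrder
  simp only [N_eq]

lemma ConstantDensity_iff (A : Set ℕ) (c δ : ℝ) (X m j : ℕ) :
    ConstantDensity A c δ X m j ↔ Pool.Agent.TH977.PW.ConstantDensity A 2 c δ X m j := by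
  unfold ConstantDensity Pool.Agent.TH977.PW.ConstantDensity
  simp only [N_eq]

open Classical in
lemma badScales_eq (A : Set ℕ) (c δ : ℝ) (X Y m : ℕ) :
    badScales A c δ X Y m = Pool.Agent.TH977.PW.badScales A 2 c δ X Y m := by
  unfold badScales Pool.Agent.TH977.PW.badScales
  refine congrArg card (Finset.ext fun j => ?_)
  simp only [mem_filter, ConstantDensity_iff]

lemma Irregular_eq (A : Set ℕ) (c δ : ℝ) (B X Y : ℕ) :
    Irregular A c δ B X Y = Pool.Agent.TH977.PW.Irregular A 2 c δ B X Y := by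
  unfold Irregular Pool.Agent.TH977.PW.Irregular
  simp only [RightOrder_iff, badScales_eq]

/-- **Regular points.** -/
theorem result (θ : ℝ) (hθ : 0 < θ) (hθ1 : θ ≤ 1) :
    -- prime values
    (∀ ε : ℝ, 0 < ε → ∃ c : ℝ, 0 < c ∧ ∀ δ : ℝ, 0 < δ → ∃ B : ℕ, ∀ᶠ X : ℕ in atTop, ∀ Y : ℕ,
      (X : ℝ) ^ θ ≤ Y → 2 * Y ≤ X → ∀ A : Set ℕ, (∀ p ∈ A, p.Prime ∧ (2 * p - 1).Prime) →
        (N (Irregular A c δ B X Y) X (X + Y) : ℝ) ≤ ε * (Y / Real.log X ^ 2)) ∧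
    -- rough values
    ∃ r₀ : ℕ, ∀ r : ℕ, r₀ ≤ r →
      (∀ ε : ℝ, 0 < ε → ∃ c : ℝ, 0 < c ∧ ∀ δ : ℝ, 0 < δ → ∃ B : ℕ, ∀ᶠ X : ℕ in atTop, ∀ Y : ℕ,
        (X : ℝ) ^ θ ≤ Y → 2 * Y ≤ X → ∀ A : Set ℕ, (∀ p ∈ A, PrimeRough r p) →
          (N (Irregular A c δ B X Y) X (X + Y) : ℝ) ≤ ε * (Y / Real.log X ^ 2)) ∧
      ∃ κ : ℝ, 0 < κ ∧ ∀ᶠ X : ℕ in atTop, κ * (X / Real.log X ^ 2) ≤
        (N {p | PrimeRough r p ∧ (2 * p - 1).primeFactorsList.length ≤ r} X (2 * X) : ℝ) := by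
  classical
  obtain ⟨r0, hr0, h1⟩ := Pool.Agent.TH977.PW.final_lin_prime (fun i => (![2] : Fin 1 → ℕ) i) (fun i => (![-1] : Fin 1 → ℤ) i)
    hpos (fun i => by fin_cases i; exact isCoprime_one_right.neg_right) (fun _ _ _ _ => Subsingleton.elim _ _) (fun i h => by fin_cases i; exact absurd h.1 (by norm_num)) (fun p hp => by
      refine ⟨1, fun h => hp.one_lt.ne' (Nat.dvd_one.1 h), fun i h => ?_⟩
      fin_cases i
      have h1 : (p : ℤ) ∣ ((2 : ℕ) : ℤ) * ((1 : ℕ) : ℤ) + (-1) := h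
      have h2 : p ∣ 1 := by
        have e : ((2 : ℕ) : ℤ) * ((1 : ℕ) : ℤ) + (-1) = ((1 : ℕ) : ℤ) := by norm_num
        rw [e] at h1
        exact Int.natCast_dvd_natCast.1 h1
      exact hp.one_lt.ne' (Nat.dvd_one.1 h2))
    (fun r => {p | PrimeRough r p})
    (fun r => {p | PrimeRough r p ∧ (2 * p - 1).primeFactorsList.length ≤ r}) 2 (by rw [Fintype.card_fin])
    (fun r m hr hm => ⟨fun p hp hd => Pool.Agent.TH977.PW.rpow_lt_dvd r m p hr hm.1 hp hd,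
      fun i p hp hd => hR r m hm i p hp hd⟩)
    (fun r m hr hm hm2 hm3 => ⟨⟨hm, fun q hq hd => hA1 r m hm.one_lt.le hm2 q hq hd⟩,
      hA2 r m hm.one_lt.le hm3⟩) θ hθ hθ1
  have key : ∀ r : ℕ, r0 ≤ r → ∀ ε : ℝ, 0 < ε → ∃ c : ℝ, 0 < c ∧ ∀ δ : ℝ, 0 < δ → ∃ B : ℕ,
      ∀ᶠ X : ℕ in atTop, ∀ Y : ℕ,
      (X : ℝ) ^ θ ≤ Y → 2 * Y ≤ X → ∀ A : Set ℕ, (∀ p ∈ A, PrimeRough r p) →
        (N (Irregular A c δ B X Y) X (X + Y) : ℝ) ≤ ε * (Y / Real.log X ^ 2) := by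
    intro r hr ε hε
    obtain ⟨c, hc, h2⟩ := (h1 r hr).2 ε hε
    refine ⟨c, hc, fun δ hδ => ?_⟩
    obtain ⟨B, h3⟩ := h2 δ hδ
    refine ⟨B, ?_⟩
    filter_upwards [h3] with X hX Y hXY hYX A hA
    have h4 := hX Y hXY hYX A (fun p hp => hA p hp)
    rw [N_eq, Irregular_eq]
    calc _ ≤ ε * Y / Real.log X ^ 2 := h4
      _ = _ := by ring
  refine ⟨?_, r0, fun r hr => ⟨key r hr, ?_⟩⟩
  · intro ε hε
    obtain ⟨c, hc, h2⟩ := key r0 le_rfl ε hε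
    refine ⟨c, hc, fun δ hδ => ?_⟩
    obtain ⟨B, h3⟩ := h2 δ hδ
    refine ⟨B, ?_⟩
    filter_upwards [h3] with X hX Y hXY hYX A hA
    exact hX Y hXY hYX A (fun p hp => prime_rough r0 hr0 p (hA p hp))
  · obtain ⟨κ, hκ, h2⟩ := (h1 r hr).1
    refine ⟨κ, hκ, ?_⟩
    filter_upwards [h2] with X hX
    rw [N_eq]
    calc κ * (X / Real.log X ^ 2) = κ * X / Real.log X ^ 2 := by ring
      _ ≤ _ := hX

end Pool.Agent.Results.MP_39a890_nt.RegularPoints
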