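import Pool.Agent.Q25.GWin

/-!
# The number of Goldbach representations, for almost all even members of arbitrary thin families of integers

Definitions used from `Pool.Agent.H560R3.GB`: `C₂`: the twin prime constant
`∏_{p > 2} (1 - 1 / (p - 1) ^ 2)`; `sing n`: the singular series `2 C₂ ∏_{p ∣ n, p > 2} (p - 1) / (p - 2)`;
`g n`: the number of ordered representations of `n` as a sum of two primes (`r₂(n; ℙ)` in the problem).
-/

set_option autoImplicit false

namespace Pool.Agent.Results.MP_629a14_nt.ThinFamilies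

open Finset Polynomial Pool.Agent.H560R3.GB

/-- The number of primes `p` with `y₁ < p ≤ y₂` such that `n - p` is a prime. -/
def R (n y₁ y₂ : ℕ) : ℕ := ((Ioc y₁ y₂).filter (fun p => p.Prime ∧ (n - p).Prime)).card

/-- (1) `r₂(n; ℙ)` agrees with the prediction of Hardy and Littlewood up to a relative error of at most `ε`; (2) it lies
between `(1 - ε) C₂` and `1 + ε` times `n² / (φ(n) log² n)`; (3) for all windows `(y₁, y₂]` in `[0, n]` of a length of at
least `n / log ^ A n`, the number of the representations `n = p + q` with `p` in the window agrees with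
`sing n * (y₂ - y₁) / log² n` up to a relative error of at most `ε`. -/
def Holds (ε : ℝ) (A n : ℕ) : Prop :=
  |(g n : ℝ) - sing n * (n / Real.log n ^ 2)| ≤ ε * (sing n * (n / Real.log n ^ 2)) ∧
  (1 - ε) * C₂ * ((n : ℝ) ^ 2 / (n.totient * Real.log n ^ 2)) ≤ g n ∧
  (g n : ℝ) ≤ (1 + ε) * ((n : ℝ) ^ 2 / (n.totient * Real.log n ^ 2)) ∧
  ∀ y₁ y₂ : ℕ, y₁ < y₂ → y₂ ≤ n → (n : ℝ) / Real.log n ^ A ≤ (y₂ : ℝ) - y₁ →
    |(R n y₁ y₂ : ℝ) - sing n * ((y₂ : ℝ) - y₁) / Real.log n ^ 2| ≤ ε * (sing n * ((y₂ : ℝ) - y₁) / Real.log n ^ 2)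

/-- The additive energy of order `h` of a finite family of integers `v i`: the number of solutions of
`v (a 1) + ... + v (a h) = v (b 1) + ... + v (b h)`. -/
noncomputable def energy (h : ℕ) {ι : Type} [Fintype ι] (v : ι → ℤ) : ℕ :=
  Nat.card {q : (Fin h → ι) × (Fin h → ι) // ∑ j, v (q.1 j) = ∑ j, v (q.2 j)}

/-- The number of representations of `t` as `v (a 1) + ... + v (a h)`. -/
noncomputable def reps (h : ℕ) {ι : Type} [Fintype ι] (v : ι → ℤ) (t : ℤ) : ℕ :=
  Nat.card {a : Fin h → ι // ∑ j, v (a j) = t}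

open Classical in
/-- The number of the members `v i` of the family which are positive and even, and for which `Holds`
fails. -/
noncomputable def exceptions (ε : ℝ) (A : ℕ) {ι : Type} [Fintype ι] (v : ι → ℤ) : ℕ :=
  (univ.filter (fun i => 0 < v i ∧ Even (v i) ∧ ¬ Holds ε A (v i).toNat)).card

lemma holds_of (ε : ℝ) (hε : 0 < ε) (A : ℕ) : ∀ m : ℕ, 3 ≤ m → 2 ∣ m → Pool.Agent.W93.PG.WinP ε A m → Holds ε A m := by
  intro m hm h2 hwin
  have h1 := Pool.Agent.Q25.GWin.g_of_win hm hwin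
  obtain ⟨h3, h4⟩ := Pool.Agent.Q25.GWin.two_sided ε m (by omega) h2 h1
  exact ⟨h1, h3, h4 hε.le, hwin⟩

theorem first (h A B C U : ℕ) (hh : 1 ≤ h) (ε : ℝ) (hε : 0 < ε) :
    ∃ N₀ : ℕ, ∀ N : ℕ, N₀ ≤ N → ∀ (ι : Type) [Fintype ι] (v : ι → ℤ),
      (∀ i, v i ≤ B * N) →
      (energy h v : ℝ) * N ≤ Real.log N ^ C * (Fintype.card ι : ℝ) ^ (2 * h) →
      (exceptions ε A v : ℝ) ≤ Fintype.card ι / Real.log N ^ U := by
  classical
  obtain ⟨N₀, h0⟩ := Pool.Agent.TH935.GF.transfer h B C U (Holds ε A) (by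
    intro B C U
    exact Pool.Agent.TH935.GF.fam_win h B C A U 3 hh ε hε (Holds ε A) (holds_of ε hε A))
  exact ⟨N₀, fun N hN ι _ v hv hE => h0 N hN ι v hv hE _ (fun i hi => (mem_filter.1 hi).2)⟩

open Classical in
/-- Let `h ≥ 1`, `A`, `B`, `C`, `U` and `ε > 0` be fixed, and let `N` be large. Let `v i`, `i ∈ ι`, be an
arbitrary finite family of integers `≤ B N`.

* Suppose that the additive energy of order `h` of the family is at most `log ^ C N` times `(#ι) ^ (2 h) / N` (up to the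
  power of the logarithm this is the least possible energy of a family with members in `[0, N]`, and the family may have
  as few as `N ^ (1 / h)` members). Then `Holds ε A` is true for all of its positive even members, with at most
  `#ι / log ^ U N` exceptions.
* In particular this holds if no integer has more than `log ^ C N` representations as a sum of `h` members
  of the family, and `(#ι) ^ h ≥ N / log ^ C N`.
* It also holds for the values `c + P m`, `1 ≤ m ≤ x`, of every non-constant polynomial `P` with integer coefficients, of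
  degree `d`, for all integers `c` with `|c| ≤ B N` and all `x` with `N / log ^ C N ≤ x ^ d ≤ B N`. -/
theorem result (h A B C U : ℕ) (hh : 1 ≤ h) (ε : ℝ) (hε : 0 < ε) :
    (∃ N₀ : ℕ, ∀ N : ℕ, N₀ ≤ N → ∀ (ι : Type) [Fintype ι] (v : ι → ℤ),
      (∀ i, v i ≤ B * N) →
      (energy h v : ℝ) * N ≤ Real.log N ^ C * (Fintype.card ι : ℝ) ^ (2 * h) →
      (exceptions ε A v : ℝ) ≤ Fintype.card ι / Real.log N ^ U) ∧
    (∃ N₀ : ℕ, ∀ N : ℕ, N₀ ≤ N → ∀ (ι : Type) [Fintype ι] (v : ι → ℤ),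
      (∀ i, v i ≤ B * N) →
      (∀ t, (reps h v t : ℝ) ≤ Real.log N ^ C) →
      (N : ℝ) ≤ Real.log N ^ C * (Fintype.card ι : ℝ) ^ h →
      (exceptions ε A v : ℝ) ≤ Fintype.card ι / Real.log N ^ U) ∧
    (∀ P : ℤ[X], 1 ≤ P.natDegree → ∃ N₀ : ℕ, ∀ N : ℕ, N₀ ≤ N → ∀ c : ℤ, |c| ≤ B * N → ∀ x : ℕ,
      (N : ℝ) ≤ Real.log N ^ C * (x : ℝ) ^ P.natDegree → x ^ P.natDegree ≤ B * N →
      (((Icc 1 x).filter (fun m : ℕ => 0 < c + P.eval (m : ℤ) ∧ Even (c + P.eval (m : ℤ)) ∧
        ¬ Holds ε A (c + P.eval (m : ℤ)).toNat)).card : ℝ) ≤ x / Real.log N ^ U) := by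
  refine ⟨first h A B C U hh ε hε, ?_, ?_⟩
  · obtain ⟨N₀, h0⟩ := first h A B (2 * C) U hh ε hε
    obtain ⟨N₁, h1⟩ := Pool.Agent.H373R2.T7.ev_L' 1
    refine ⟨N₀ + N₁, fun N hN ι _ v hv hJ hI => h0 N (by omega) ι v hv ?_⟩
    have hL := h1 N (by omega)
    obtain ⟨L, hLd⟩ : ∃ L, L = Real.log (N : ℝ) := ⟨_, rfl⟩
    rw [← hLd] at hJ hI hL ⊢
    have hE : (energy h v : ℝ) ≤ (Fintype.card ι : ℝ) ^ h * L ^ C :=
      Pool.Agent.TH935.GF.En_le h v _ hJ
    have hC0 : (0 : ℝ) ≤ (Fintype.card ι : ℝ) ^ h * L ^ C := by positivity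
    calc (energy h v : ℝ) * N ≤ ((Fintype.card ι : ℝ) ^ h * L ^ C) * (L ^ C * (Fintype.card ι : ℝ) ^ h) :=
          mul_le_mul hE hI (Nat.cast_nonneg _) hC0
      _ = _ := by ring
  · intro P hP
    obtain ⟨N₀, h0⟩ := Pool.Agent.Q25.GWin.poly_win P hP B C A U 3 ε hε (Holds ε A) (holds_of ε hε A)
    exact ⟨N₀, fun N hN c hc x h1 h2 => h0 N hN c hc x h1 h2 _ (fun m hm => hm)⟩

end Pool.Agent.Results.MP_629a14_nt.ThinFamilies
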