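import Pool.Agent.Y879.GL.Prog2

/-!
# The structure of the set of the Goldbach representations of every even number, in progressions

Let `n` be even, `q` a modulus up to `n` and `a` a class with `a` and `n - a` prime to `q`. Let `R` be the set of the `x`
such that neither `q x + a` nor `n - (q x + a)` has a prime factor `≤ n ^ (1/r)`; `V` is its sieve density. Let `A` be an
ARBITRARY subset of `R`, for example the set of the `x` such that `q x + a` and `n - (q x + a)` are both prime (and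
larger than `n ^ (1/r)`). In all intervals of length at least `n ^ θ` all but `ε Y V` of the elements `m` of `A` are
regular points of `A`: the numbers of the elements of `A` in ALL intervals around `m` of length between `1 / (c V)` and
`Y` have the right order, and `A` has constant density up to `δ` on both sides of `m` at all but `B (ε, δ)` dyadic
scales. This holds for EVERY large even `n`.
-/

set_option autoImplicit false

namespace Pool.Agent.Results.MP_dd84fd_nt.RegularRepresentations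

open Finset Filter

open Classical in
/-- the number of the elements of `A` in `(u, v]` -/
noncomputable def N (A : Set ℕ) (u v : ℕ) : ℕ := ((Ioc u v).filter (fun m => m ∈ A)).card

/-- All intervals `(m - s, m + t]` with `s, t ≤ Y` of length at least `L / c` contain the right order of elements
of `A`. -/
def RightOrder (A : Set ℕ) (L c : ℝ) (Y m : ℕ) : Prop :=
  ∀ s t : ℕ, s ≤ Y → t ≤ Y → L ≤ c * (s + t) →
    c * (s + t) / L ≤ N A (m - s) (m + t) ∧ (N A (m - s) (m + t) : ℝ) ≤ (s + t) / (c * L)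

/-- Up to `δ`, `A` has a constant density on both sides of `m` up to the distance `2 ^ j`. -/
def ConstantDensity (A : Set ℕ) (L c δ : ℝ) (m j : ℕ) : Prop :=
  ∃ lam : ℝ, c ≤ lam ∧ lam ≤ 1 / c ∧ ∀ s t : ℕ, s ≤ 2 ^ j → t ≤ 2 ^ j →
    |(N A (m - s) (m + t) : ℝ) - lam * (s + t) / L| ≤ δ * 2 ^ j / L

open Classical in
/-- the number of the scales `L ≤ 2 ^ j ≤ Y` without this property -/
noncomputable def badScales (A : Set ℕ) (L c δ : ℝ) (Y m : ℕ) : ℕ :=
  ((range (Nat.log 2 Y + 1)).filter (fun j => L ≤ (2 : ℝ) ^ j ∧ ¬ ConstantDensity A L c δ m j)).card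

/-- The elements of `A` that are not regular points of `A`. -/
def Irregular (A : Set ℕ) (L c δ : ℝ) (B Y : ℕ) : Set ℕ :=
  {m | m ∈ A ∧ ¬ (RightOrder A L c Y m ∧ badScales A L c δ Y m ≤ B)}

/-- the set of the `x` such that neither `q x + a` nor `n - (q x + a)` has a prime factor `p ≤ n ^ (1/r)` -/
def R (r n q a : ℕ) : Set ℕ :=
  {x | ∀ p : ℕ, p.Prime → (p : ℝ) ≤ (n : ℝ) ^ (1 / (r : ℝ)) →
    ¬ p ∣ q * x + a ∧ ¬ (p : ℤ) ∣ (n : ℤ) - (q * x + a)}

/-- the product of `1 - ω(p) / p` over the primes `p ≤ n ^ (1/r)` which do not divide `q`, where `ω(p) = 1` if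
`p ∣ n`, and `2` otherwise -/
noncomputable def V (r n q : ℕ) : ℝ :=
  ∏ p ∈ (Icc 1 ⌊(n : ℝ) ^ (1 / (r : ℝ))⌋₊).filter (fun p => p.Prime ∧ ¬ p ∣ q),
    (1 - (if p ∣ n then (1 : ℝ) else 2) / p)

lemma N_eq : N = Pool.Agent.TH977.PW.N := by
  funext A u v
  unfold N Pool.Agent.TH977.PW.N
  rfl

lemma Irregular_eq (A : Set ℕ) (L c δ : ℝ) (B Y : ℕ) :
    Irregular A L c δ B Y = Pool.Agent.Y879.GL.Irr A L c δ B Y := by
  unfold Irregular Pool.Agent.Y879.GL.Irr badScales Pool.Agent.Y879.GL.bS RightOrder Pool.Agent.Y879.GL.RO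
    ConstantDensity Pool.Agent.Y879.GL.CD
  rw [N_eq]

lemma R_iff (r n q a x : ℕ) : x ∈ R r n q a ↔
    Pool.Agent.TH464.PO.Sf (Pool.Agent.W123.RU.Poly.Q (Pool.Agent.Y879.GL.pf (-1) n q a))
      ⌊(n : ℝ) ^ (1 / (r : ℝ))⌋₊ x := by
  have key : ∀ p : ℕ, p.Prime → ((¬ p ∣ q * x + a ∧ ¬ (p : ℤ) ∣ (n : ℤ) - (q * x + a)) ↔
      ¬ Pool.Agent.W123.RU.Poly.Q (Pool.Agent.Y879.GL.pf (-1) n q a) p x) := by
    intro p hp
    rw [Pool.Agent.Y879.GL.pf_Q _ _ _ _ _ _ hp]
    unfold Pool.Agent.Y879.AP.Q2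
    have hpi : Prime (p : ℤ) := Nat.prime_iff_prime_int.1 hp
    rw [hpi.dvd_mul]
    push Not
    have e1 : (-1 : ℤ) * ((q * x + a : ℕ) : ℤ) + n = (n : ℤ) - (q * x + a) := by
      push_cast
      ring
    rw [e1, Int.natCast_dvd_natCast]
  unfold Pool.Agent.TH464.PO.Sf Pool.Agent.H373R2.T7.pz
  constructor
  · intro h p hp
    rw [mem_filter, mem_Icc] at hp
    have h1 : (p : ℝ) ≤ (n : ℝ) ^ (1 / (r : ℝ)) :=
      (Nat.le_floor_iff (by positivity)).1 hp.1.2
    exact (key p hp.2).1 (h p hp.2 h1)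
  · intro h p hp h1
    have h2 : p ≤ ⌊(n : ℝ) ^ (1 / (r : ℝ))⌋₊ := Nat.le_floor h1
    exact (key p hp).2 (h p (mem_filter.2 ⟨mem_Icc.2 ⟨hp.one_lt.le, h2⟩, hp⟩))

lemma V_eq (r n q : ℕ) : V r n q =
    Pool.Agent.W123.RP.Vq (Pool.Agent.Y879.AP.Qn (Pool.Agent.Y879.AP.Q2 (-1) n) q)
      ⌊(n : ℝ) ^ (1 / (r : ℝ))⌋₊ := by
  classical
  unfold V Pool.Agent.W123.RP.Vq Pool.Agent.H373R2.T7.pz
  rw [← filter_filter, prod_filter]
  refine prod_congr rfl (fun p hp => ?_)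
  have hpp := (mem_filter.1 hp).2
  by_cases h : p ∣ q
  · rw [if_neg (by simpa using h), Pool.Agent.Y879.AP.nuB_Qn_dvd _ _ _ h]
    simp
  · rw [if_pos h, Pool.Agent.Y879.AP.nuB_Qn_not _ _ _ h,
      Pool.Agent.Y879.AP.nuB_Q2 (-1) n (by norm_num) p hpp]
    unfold Pool.Agent.Y879.AP.nu2
    by_cases h2 : p ∣ n
    · rw [if_pos h2, if_pos (Int.natCast_dvd_natCast.2 h2)]
      norm_num
    · rw [if_neg h2, if_neg (fun h3 => h2 (Int.natCast_dvd_natCast.1 h3))]
      norm_num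

/-- **The structure of the set of the Goldbach representations of every even number, in progressions.** For every
`θ > 0` there is `r₀` such that for every `r ≥ r₀`:
(1) `x ∈ R` if `q x + a` and `|n - (q x + a)|` are primes larger than `n ^ (1/r)`;
(2) for every `ε > 0` there is `c₁ > 0` such that for every `δ > 0` there is `B` such that for EVERY large even `n`,
every `q ≤ n`, every class `a` with `a` and `n - a` prime to `q`, every interval `(u, u + Y]`, `n ^ θ ≤ Y ≤ u`,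
`Y ≤ n`, and EVERY subset `A` of `R` all but `ε Y V` of the elements of `A` in the interval are regular points of `A`. -/
theorem result (θ : ℝ) (hθ : 0 < θ) : ∃ r₀ : ℕ, 2 ≤ r₀ ∧ ∀ r : ℕ, r₀ ≤ r →
    (∀ n q a x : ℕ, (q * x + a).Prime → ((n : ℤ) - (q * x + a)).natAbs.Prime →
      (n : ℝ) ^ (1 / (r : ℝ)) < ((q * x + a : ℕ) : ℝ) →
      (n : ℝ) ^ (1 / (r : ℝ)) < (((n : ℤ) - (q * x + a)).natAbs : ℝ) → x ∈ R r n q a) ∧
    ∀ ε : ℝ, 0 < ε → ∃ c₁ : ℝ, 0 < c₁ ∧ ∀ δ : ℝ, 0 < δ → ∃ B n₀ : ℕ, ∀ n : ℕ, n₀ ≤ n → Even n →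
      ∀ q a : ℕ, 1 ≤ q → q ≤ n → a ≤ n → Nat.Coprime q a → IsCoprime (q : ℤ) ((n : ℤ) - a) →
      ∀ u Y : ℕ, (n : ℝ) ^ θ ≤ Y → Y ≤ n → Y ≤ u → ∀ A : Set ℕ, A ⊆ R r n q a →
        (N (Irregular A (1 / V r n q) c₁ δ B Y) u (u + Y) : ℝ) ≤ ε * (Y * V r n q) := by
  obtain ⟨r0, hr0, h⟩ := Pool.Agent.Y879.GL.prog2_her 1 θ one_pos hθ
  refine ⟨r0, hr0, fun r hr => ⟨?_, ?_⟩⟩
  · intro n q a x h1 h2 h3 h4 p hp hpn
    constructor
    · intro hd
      have h5 := (Nat.prime_dvd_prime_iff_eq hp h1).1 hd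
      rw [h5] at hpn
      linarith
    · intro hd
      have h5 := (Nat.prime_dvd_prime_iff_eq hp h2).1 (Int.natCast_dvd.1 hd)
      rw [h5] at hpn
      linarith
  · intro ε hε
    obtain ⟨cc, hcc, h2⟩ := h r hr ε hε
    refine ⟨cc, hcc, fun δ hδ => ?_⟩
    obtain ⟨B, h3⟩ := h2 δ hδ
    obtain ⟨n₀, hn₀⟩ := eventually_atTop.1 (h3.and (eventually_ge_atTop 2))
    refine ⟨B, n₀, ?_⟩
    intro n hn he q a hq hqn han hqa hqf u Y hY hYn hYu A hA
    obtain ⟨h4, hn2⟩ := hn₀ n hn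
    have h5 := h4 (-1) n q a (by norm_num) (by exact_mod_cast he) (by exact_mod_cast (by omega : n ≠ 0))
      (by rw [Real.rpow_one]; simp) hq (by rw [Real.rpow_one]; exact_mod_cast hqn)
      (by rw [Real.rpow_one]; exact_mod_cast han) hqa
      (by rw [show (-1 : ℤ) * (a : ℤ) + (n : ℤ) = (n : ℤ) - a by ring]; exact hqf)
      u Y hY hYn hYu A (fun m hm => (R_iff r n q a m).1 (hA hm))
    rw [Irregular_eq, N_eq, V_eq]
    exact h5

end Pool.Agent.Results.MP_dd84fd_nt.RegularRepresentations
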