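import Pool.Agent.TH935.TG3
import Pool.Agent.Q56.TF.Vec

/-!
# Prime tuples with arbitrary arguments: all vectors of shifts in windows around almost all vectors of members of
real sequences

The shifts `a 1, ..., a k` are arbitrary integers with `|a i - r i (m i)| ≤ log ^ A N`, for almost all vectors
`m` in a box, where for every `i` `r i 1, r i 2, ...` is an arbitrary family of real numbers of nearly minimal
energy; for instance the (real) values of a polynomial with integer coefficients, multiplied by an arbitrary real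
number `κ ≠ 0`, or of a generalised polynomial `∑ w_y t ^ y` whose largest exponent is greater than `1` and not an
integer (`t ^ c`: the sequences of Piatetski-Shapiro). The arguments `n` are from arbitrary sets.

From Mathlib: `Polynomial ℤ`, `P.eval m`: polynomials and their values; `Finset.Ioc y₁ y₂`: the integers `n` with
`y₁ < n ≤ y₂`; `Fintype.piFinset`: the product of finite sets. The formula for families of integers is from the
starting files (`Pool.Agent.TH935.TG.fam_win`, handed in as `MP_e87c7d_nt.ArbitraryArguments`).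
-/

set_option autoImplicit false

namespace Pool.Agent.Results.MP_e87c7d_nt.TuplesNearRealSequences

open Finset

open Classical in
/-- The energy of order `p` of the family of real numbers `r 1, ..., r x`: the number of the pairs `v`, `w` of
`p`-tuples of elements of `{1, ..., x}` such that `r (v 1) + ... + r (v p)` and `r (w 1) + ... + r (w p)` differ
by at most `1`. -/
noncomputable def energy (p x : ℕ) (r : ℕ → ℝ) : ℕ :=
  (((Fintype.piFinset fun _ : Fin p => Icc 1 x) ×ˢ (Fintype.piFinset fun _ : Fin p => Icc 1 x)).filter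
    (fun q => |∑ i, r (q.1 i) - ∑ i, r (q.2 i)| ≤ 1)).card

open Classical in
/-- The number of `n ∈ M` with `y₁ < n ≤ y₂` such that `|n + a i|` is prime for every `i`. -/
noncomputable def primeCount {k : ℕ} (a : Fin k → ℤ) (M : Set ℕ) (y₁ y₂ : ℕ) : ℕ :=
  ((Ioc y₁ y₂).filter (fun n : ℕ => n ∈ M ∧ ∀ i, ((n : ℤ) + a i).natAbs.Prime)).card

open Classical in
/-- The number of `n ∈ M` with `y₁ < n ≤ y₂` such that no `n + a i` is divisible by a prime `p ≤ z`. -/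
noncomputable def roughCount {k : ℕ} (a : Fin k → ℤ) (z : ℕ) (M : Set ℕ) (y₁ y₂ : ℕ) : ℕ :=
  ((Ioc y₁ y₂).filter (fun n : ℕ => n ∈ M ∧ ∀ i, ∀ p : ℕ, p.Prime → p ≤ z → ¬ (p : ℤ) ∣ (n : ℤ) + a i)).card

/-- `∏_{p ≤ z} (1 - 1 / p)`, the density of the integers without prime factors `≤ z`. -/
noncomputable def V (z : ℕ) : ℝ := ∏ p ∈ (Icc 1 z).filter Nat.Prime, (1 - 1 / (p : ℝ))

/-- The vector `a` of shifts is good: for every one of the sets `𝒩 l` and every window `y₁ < n ≤ y₂` with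
`y₂ ≤ B N` which contains at least `N / log ^ K N` elements `n` of `𝒩 l` such that the numbers `n + a i` have no
prime factor `≤ z`, the proportion of these elements for which all `|n + a i|` are prime is `1 / (V z log N) ^ k`,
up to a relative error of at most `ε`. -/
def Good (ε : ℝ) (K B N z : ℕ) {k l : ℕ} (𝒩 : Fin l → Set ℕ) (a : Fin k → ℤ) : Prop :=
  ∀ j : Fin l, ∀ y₁ y₂ : ℕ, y₁ ≤ y₂ → y₂ ≤ B * N →
    (N : ℝ) / Real.log N ^ K ≤ roughCount a z (𝒩 j) y₁ y₂ →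
    |(primeCount a (𝒩 j) y₁ y₂ : ℝ) - roughCount a z (𝒩 j) y₁ y₂ / (V z * Real.log N) ^ k| ≤
      ε * (roughCount a z (𝒩 j) y₁ y₂ / (V z * Real.log N) ^ k)

open Classical in
/-- The number of the vectors `m` in the box `1 ≤ m i ≤ x i` for which not all vectors `a` of integers with
`|a i - r i (m i)| ≤ w` for all `i` have the property `G`. -/
noncomputable def exceptions {k : ℕ} (x : Fin k → ℕ) (r : Fin k → ℕ → ℝ) (w : ℝ) (G : (Fin k → ℤ) → Prop) : ℕ :=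
  ((Fintype.piFinset fun i => Icc 1 (x i)).filter
    (fun m => ∃ a : Fin k → ℤ, (∀ i, |(a i : ℝ) - r i (m i)| ≤ w) ∧ ¬ G a)).card

/-- The bound at scale `N`: for any `l ≤ log ^ T N` sets of arguments, for all the vectors `m` with at most
`(∏ x i) / log ^ U N` exceptions all the vectors of shifts in the windows around the `r i (m i)` are good. -/
def Holds (ε : ℝ) (A B K T U N z : ℕ) {k : ℕ} (x : Fin k → ℕ) (r : Fin k → ℕ → ℝ) : Prop :=
  ∀ l : ℕ, (l : ℝ) ≤ Real.log N ^ T → ∀ 𝒩 : Fin l → Set ℕ,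
    (exceptions x r (Real.log N ^ A) (Good ε K B N z 𝒩) : ℝ) ≤ (∏ i, (x i : ℝ)) / Real.log N ^ U

/-- The sequences: `κ P(m)` for a nonconstant polynomial `P` with integer coefficients, of degree `e`, and a real
number `κ ≠ 0`; or `∑ w_y m ^ y`, a sum over a finite set `F` of real exponents with the largest element `e`, where
`e > 1` is not an integer and `w_e ≠ 0`. -/
def IsSeq (f : ℕ → ℝ) (e : ℝ) : Prop :=
  (∃ P : Polynomial ℤ, 1 ≤ P.natDegree ∧ e = P.natDegree ∧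
    ∃ κ : ℝ, κ ≠ 0 ∧ ∀ m : ℕ, f m = κ * ((P.eval (m : ℤ) : ℤ) : ℝ)) ∨
  (∃ (F : Finset ℝ) (w : ℝ → ℝ), e ∈ F ∧ (∀ y ∈ F, y ≤ e) ∧ w e ≠ 0 ∧ 1 < e ∧ (∀ k : ℕ, e ≠ k) ∧
    ∀ m : ℕ, f m = ∑ y ∈ F, w y * (m : ℝ) ^ y)

open Pool.Agent.TH935.TG
open Pool.Agent.H373R2.T7 (pz mem_pz Vz)

lemma seq_base {f : ℕ → ℝ} {e : ℝ} (h : IsSeq f e) : Pool.Agent.Q56.TF.Base f e ∧ 1 ≤ e := by
  rcases h with ⟨P, hP, rfl, κ, hκ, hf⟩ | ⟨F, w, h1, h2, h3, h4, h5, hf⟩
  · have e1 : f = fun m : ℕ => κ * ((P.eval (m : ℤ) : ℤ) : ℝ) := funext hf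
    rw [e1]
    exact ⟨(Pool.Agent.Q56.TF.base_poly P hP).dil hκ, by exact_mod_cast hP⟩
  · have e1 : f = fun m : ℕ => ∑ y ∈ F, w y * (m : ℝ) ^ y := funext hf
    rw [e1]
    exact ⟨Pool.Agent.Q56.TF.base_gp F w e h1 h2 h3 h4 h5, h4.le⟩

open Classical in
lemma prime_eq {k : ℕ} (a : Fin k → ℤ) (M : Set ℕ) (Y y₁ y₂ : ℕ) (hY : y₂ ≤ Y) :
    primeCount a M y₁ y₂ = cnM (fun _ => 1) a (win ((Ioc 0 Y).filter (· ∈ M)) y₁ y₂) := by
  unfold primeCount cnM win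
  rw [filter_filter, filter_filter]
  congr 1
  ext n
  rw [mem_filter, mem_filter, mem_Ioc, mem_Ioc]
  simp only [one_mul]
  constructor
  · rintro ⟨⟨h1, h2⟩, h3, h4⟩
    exact ⟨⟨by omega, by omega⟩, h3, ⟨h1, h2⟩, h4⟩
  · rintro ⟨_, h3, ⟨h1, h2⟩, h4⟩
    exact ⟨⟨h1, h2⟩, h3, h4⟩

open Classical in
lemma rough_eq {k : ℕ} (a : Fin k → ℤ) (z : ℕ) (M : Set ℕ) (Y y₁ y₂ : ℕ) (hY : y₂ ≤ Y) :
    roughCount a z M y₁ y₂ = rgM (fun _ => 1) a z (win ((Ioc 0 Y).filter (· ∈ M)) y₁ y₂) := by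
  unfold roughCount rgM win
  rw [filter_filter, filter_filter]
  congr 1
  ext n
  rw [mem_filter, mem_filter, mem_Ioc, mem_Ioc]
  simp only [one_mul]
  constructor
  · rintro ⟨⟨h1, h2⟩, h3, h4⟩
    exact ⟨⟨by omega, by omega⟩, h3, ⟨h1, h2⟩, fun i p hp => h4 i p (mem_pz.1 hp).2 (mem_pz.1 hp).1⟩
  · rintro ⟨_, h3, ⟨h1, h2⟩, h4⟩
    exact ⟨⟨h1, h2⟩, h3, fun i p hp1 hp2 => h4 i p (mem_pz.2 ⟨hp2, hp1⟩)⟩

open Classical in
lemma good_of (ε : ℝ) (K B B' N z : ℕ) (hB : B ≤ B') {k l : ℕ} (𝒩 : Fin l → Set ℕ) (a : Fin k → ℤ)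
    (h : HB ε K 0 B' N z (fun j : Fin l => (Ioc 0 (B' * N)).filter (· ∈ 𝒩 j)) a) : Good ε K B N z 𝒩 a := by
  intro j y₁ y₂ h12 hy2 hR
  have hy3 : y₂ ≤ B' * N := hy2.trans (Nat.mul_le_mul_right _ hB)
  have h1 := h (fun _ => 1) (fun _ => one_ne_zero) (fun _ => by simp) j y₁ y₂ h12 hy3
  rw [rough_eq a z (𝒩 j) (B' * N) y₁ y₂ hy3] at hR ⊢
  rw [prime_eq a (𝒩 j) (B' * N) y₁ y₂ hy3]
  exact h1 hR

open Classical in
lemma holds_of (k p A B B' C T U K : ℕ) (hk : 1 ≤ k) (hB : B ≤ B') (ε : ℝ) (hε : 0 < ε) :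
    ∃ E₀ : ℕ, ∀ E : ℕ, E₀ ≤ E → ∃ N₀ : ℕ, ∀ N : ℕ, N₀ ≤ N → ∀ (x : Fin k → ℕ) (r : Fin k → ℕ → ℝ),
      (∀ i, Pool.Agent.Q56.TF.Flo p B' C N (x i) (r i)) → Holds ε A B K T U N ⌊Real.log N ^ E⌋₊ x r := by
  obtain ⟨E₀, h0⟩ := Pool.Agent.TH935.TG.fam_win k p (B' + 1) C 0 T (U + (A + 1) * k) K hk ε hε
  refine ⟨E₀, fun E hE => ?_⟩
  obtain ⟨N₁, h1⟩ := h0 E hE
  obtain ⟨N₂, h2⟩ := Pool.Agent.Q56.TF.vec k A B' C p U
  refine ⟨N₁ + N₂, fun N hN x r hr l hl 𝒩 => ?_⟩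
  refine h2 N (by omega) x r hr (fun a => ¬ HB ε K 0 (B' + 1) N ⌊Real.log N ^ E⌋₊
    (fun j : Fin l => (Ioc 0 ((B' + 1) * N)).filter (· ∈ 𝒩 j)) a) ?_ _ (filter_subset _ _) ?_
  · intro s hs hE 𝒮 h𝒮 hb
    exact h1 N (by omega) (Fin l) (by rw [Fintype.card_fin]; exact hl)
      (fun j : Fin l => (Ioc 0 ((B' + 1) * N)).filter (· ∈ 𝒩 j)) (fun j => filter_subset _ _) x s hs hE 𝒮 h𝒮 hb
  · intro q hq
    obtain ⟨_, a, ha1, ha2⟩ := mem_filter.1 hq
    exact ⟨a, ha1, fun h => ha2 (good_of ε K B (B' + 1) N _ (by omega) 𝒩 a h)⟩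

/-- Let `k ≥ 1`, `A`, `B`, `C`, `K`, `T`, `U` and `ε > 0` be fixed.

* For every `p` the following holds if `E` is large and `N` is large in terms of `E`; put `z = ⌊log ^ E N⌋`. For
  `i = 1, ..., k` let `r i 1, ..., r i (x i)` be an arbitrary family of real numbers in `[-B N, B N]` with an energy
  of order `p` of at most `log ^ C N` times `(x i) ^ (2 p) / N` (the minimal possible order of magnitude). Let
  `𝒩 j`, `j ≤ l`, be arbitrary sets of positive integers, `l ≤ log ^ T N`. For all vectors `m` in the box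
  `1 ≤ m i ≤ x i`, with at most `(∏ x i) / log ^ U N` exceptions, ALL vectors `a` of integers with
  `|a i - r i (m i)| ≤ log ^ A N` for all `i` satisfy, simultaneously for all the sets `𝒩 j` and all windows
  `(y₁, y₂]` with `y₂ ≤ B N`: if `R` is the number of the elements `n` of `𝒩 j` in the window for which
  `n + a 1, ..., n + a k` have no prime factor `≤ z`, and `R ≥ N / log ^ K N`, then the number of the elements `n` of
  `𝒩 j` in the window for which `|n + a 1|, ..., |n + a k|` are all prime is `(1 + O(ε)) R / (V z log N) ^ k`.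
* This holds for `r i m = β i + f i m`, where each `f i` is one of the sequences `IsSeq` with the exponent `e i`
  (`κ P(m)` with a polynomial `P` of degree `e i`, or `∑ w_y m ^ y` with the largest exponent `e i`), the `β i` are
  any real numbers with `|β i| ≤ B N`, and `N / log ^ C N ≤ (x i) ^ (e i) ≤ B N`. -/
theorem result (k A B C K T U : ℕ) (hk : 1 ≤ k) (ε : ℝ) (hε : 0 < ε) :
    (∀ p : ℕ, ∃ E₀ : ℕ, ∀ E : ℕ, E₀ ≤ E → ∃ N₀ : ℕ, ∀ N : ℕ, N₀ ≤ N →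
      ∀ (x : Fin k → ℕ) (r : Fin k → ℕ → ℝ), (∀ i, ∀ m ∈ Icc 1 (x i), |r i m| ≤ B * N) →
      (∀ i, (energy p (x i) (r i) : ℝ) * N ≤ Real.log N ^ C * (x i : ℝ) ^ (2 * p)) →
      Holds ε A B K T U N ⌊Real.log N ^ E⌋₊ x r) ∧
    (∀ (f : Fin k → ℕ → ℝ) (e : Fin k → ℝ), (∀ i, IsSeq (f i) (e i)) →
      ∃ E₀ : ℕ, ∀ E : ℕ, E₀ ≤ E → ∃ N₀ : ℕ, ∀ N : ℕ, N₀ ≤ N → ∀ x : Fin k → ℕ,
      (∀ i, (x i : ℝ) ^ (e i) ≤ B * N) → (∀ i, (N : ℝ) ≤ Real.log N ^ C * (x i : ℝ) ^ (e i)) →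
      ∀ β : Fin k → ℝ, (∀ i, |β i| ≤ B * N) →
      Holds ε A B K T U N ⌊Real.log N ^ E⌋₊ x (fun i m => β i + f i m)) := by
  classical
  refine ⟨fun p => ?_, fun f e hf => ?_⟩
  · obtain ⟨N₁, h1⟩ := Pool.Agent.Q56.TF.flo_of p B C
    obtain ⟨E₀, h2⟩ := holds_of k p A B (B + 1) (C + 1) T U K hk (by omega) ε hε
    refine ⟨E₀, fun E hE => ?_⟩
    obtain ⟨N₂, h3⟩ := h2 E hE
    exact ⟨N₁ + N₂, fun N hN x r hr hen => h3 N (by omega) x r fun i => h1 N (by omega) (x i) (r i) (hr i) (hen i)⟩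
  · obtain ⟨p, B', C', N₁, h1⟩ := Pool.Agent.Q56.TF.flo_vec f e (fun i => (seq_base (hf i)).1)
      (fun i => (seq_base (hf i)).2) B C
    obtain ⟨N₃, h4⟩ := Pool.Agent.H373R2.T7.ev_L' 1
    obtain ⟨E₀, h2⟩ := holds_of k p A B (B + B') C' T U K hk (by omega) ε hε
    refine ⟨E₀, fun E hE => ?_⟩
    obtain ⟨N₂, h3⟩ := h2 E hE
    exact ⟨N₁ + N₂ + N₃, fun N hN x hx1 hx2 β hβ => h3 N (by omega) x _ fun i =>
      (h1 N (by omega) x hx1 hx2 β hβ i).mono le_rfl (by omega) le_rfl (by exact_mod_cast h4 N (by omega))⟩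

end Pool.Agent.Results.MP_e87c7d_nt.TuplesNearRealSequences
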